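import Mathlib

/-!
# The chromatic discrepancy can be smaller than `χ - ω`

The complement `G` of the circulant graph on 35 vertices with jumps `±1, ±7, ±11, ±16` has
`χ(G) ≥ 18`, `ω(G) ≤ 8` and chromatic discrepancy at most `9`.
-/

set_option autoImplicit false

namespace Pool.Agent.Results.MP_2248a2_co.RamseyCounterexample

open Finset

/-- The chromatic discrepancy of `G`: the least `d` such that some proper colouring `c` of `G`
(with any number of colours) has at most `χ(H) + d` distinct colours on every induced
subgraph `H` of `G`. -/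
noncomputable def chromaticDiscrepancy {V : Type*} (G : SimpleGraph V) : ℕ :=
  sInf {d : ℕ | ∃ c : G.Coloring ℕ, ∀ S : Set V,
    (c '' S).encard ≤ (G.induce S).chromaticNumber + d}

/-- The jumps `±1, ±7, ±11, ±16` modulo `35`. -/
def jump (d : ℕ) : Bool :=
  d == 1 || d == 7 || d == 11 || d == 16 || d == 19 || d == 24 || d == 28 || d == 34

/-- The triangle-free circulant graph on 35 vertices. -/
def T : SimpleGraph (Fin 35) where
  Adj i j := jump (i - j).val = true
  symm := ⟨by decide⟩
  loopless := ⟨by decide⟩

instance : DecidableRel T.Adj := fun i j => inferInstanceAs (Decidable (jump (i - j).val = true))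

/-- Bit mask of the vertices not adjacent to `v`. -/
def nb (v : ℕ) : ℕ := (16894064509 <<< v ||| 16894064509 >>> (35 - v)) &&& 34359738367

/-- Search certificate: `chk fuel mask k = true` only if every stable set of `T` inside `mask`
has at most `k` vertices. -/
def chk : ℕ → ℕ → ℕ → Bool
  | 0, _, _ => false
  | fuel + 1, mask, k =>
    if mask = 0 then true
    else if k = 0 then false
    else
      chk fuel (mask ^^^ (1 <<< mask.log2)) k &&
      chk fuel ((mask ^^^ (1 <<< mask.log2)) &&& nb mask.log2) (k - 1)

theorem chk_full : chk 36 34359738367 8 = true := by decide +kernel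

theorem testBit_xor_ne (mask v i : ℕ) (h : i ≠ v) :
    (mask ^^^ (1 <<< v)).testBit i = mask.testBit i := by
  rw [Nat.testBit_xor, Nat.one_shiftLeft, Nat.testBit_two_pow_of_ne (Ne.symm h), Bool.xor_false]

theorem chk_sound : ∀ (fuel mask k : ℕ), chk fuel mask k = true → ∀ I : Finset ℕ,
    (∀ i ∈ I, mask.testBit i = true) → (∀ i ∈ I, ∀ j ∈ I, i ≠ j → (nb i).testBit j = true) →
    I.card ≤ k := by
  intro fuel
  induction fuel with
  | zero => intro mask k h; simp [chk] at h
  | succ fuel ih =>
    intro mask k h I hI hind
    rw [chk] at h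
    by_cases hm : mask = 0
    · subst hm
      have : I = ∅ := by
        apply Finset.eq_empty_of_forall_notMem
        intro i hi
        have := hI i hi
        simp at this
      simp [this]
    · rw [if_neg hm] at h
      by_cases hk : k = 0
      · rw [if_pos hk] at h; exact absurd h (by simp)
      · rw [if_neg hk, Bool.and_eq_true] at h
        obtain ⟨h1, h2⟩ := h
        by_cases hv : mask.log2 ∈ I
        · have hc := ih _ _ h2 (I.erase mask.log2) ?_ ?_
          · rw [Finset.card_erase_of_mem hv] at hc
            omega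
          · intro i hi
            have hne := Finset.ne_of_mem_erase hi
            have hiI := Finset.mem_of_mem_erase hi
            rw [Nat.testBit_and, testBit_xor_ne _ _ _ hne, hI i hiI,
              hind _ hv i hiI (Ne.symm hne)]
            rfl
          · intro i hi j hj
            exact hind i (Finset.mem_of_mem_erase hi) j (Finset.mem_of_mem_erase hj)
        · refine ih _ _ h1 I ?_ hind
          intro i hi
          have hne : i ≠ mask.log2 := fun h => hv (h ▸ hi)
          rw [testBit_xor_ne _ _ _ hne]
          exact hI i hi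

theorem bits_full : ∀ i : Fin 35, (34359738367 : ℕ).testBit i.val = true := by decide

theorem bits_nb : ∀ i j : Fin 35, ¬ T.Adj i j → (nb i.val).testBit j.val = true := by
  decide +kernel

/-- Every clique of the complement of `T` has at most 8 vertices. -/
theorem clique_le (s : Finset (Fin 35)) (hs : Tᶜ.IsClique s) : s.card ≤ 8 := by
  have h := chk_sound _ _ _ chk_full (s.map Fin.valEmbedding) ?_ ?_
  · simpa using h
  · intro i hi
    rw [Finset.mem_map] at hi
    obtain ⟨a, -, rfl⟩ := hi
    exact bits_full a
  · intro i hi j hj hij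
    rw [Finset.mem_map] at hi hj
    obtain ⟨a, ha, rfl⟩ := hi
    obtain ⟨b, hb, rfl⟩ := hj
    have hab : a ≠ b := fun h => hij (by rw [h])
    have := hs ha hb hab
    rw [SimpleGraph.compl_adj] at this
    exact bits_nb a b this.2

theorem cliqueNum_le : Tᶜ.cliqueNum ≤ 8 := by
  obtain ⟨s, hs⟩ := Tᶜ.exists_isNClique_cliqueNum
  rw [← hs.card_eq]
  exact clique_le s hs.isClique

theorem T_triangle : ∀ a b c : Fin 35, T.Adj a b → T.Adj b c → T.Adj a c → False := by
  decide +kernel

open Classical in
/-- A set of vertices on which a colouring of the complement is constant has at most two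
elements. -/
theorem class_le {S : Set (Fin 35)} {k : ℕ} (c : (Tᶜ.induce S).Coloring (Fin k)) (i : Fin k) :
    (Finset.univ.filter (fun v : S => c v = i)).card ≤ 2 := by
  by_contra hcon
  rw [not_le, Finset.two_lt_card] at hcon
  obtain ⟨a, ha, b, hb, d, hd, hab, had, hbd⟩ := hcon
  simp only [Finset.mem_filter, Finset.mem_univ, true_and] at ha hb hd
  have key : ∀ x y : S, c x = i → c y = i → x ≠ y → T.Adj x.1 y.1 := by
    intro x y hx hy hxy
    by_contra hn
    have : (Tᶜ.induce S).Adj x y := by
      rw [SimpleGraph.induce_adj, SimpleGraph.compl_adj]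
      exact ⟨fun h => hxy (Subtype.ext h), hn⟩
    exact c.valid this (hx.trans hy.symm)
  exact T_triangle a.1 b.1 d.1 (key a b ha hb hab) (key b d hb hd hbd) (key a d ha hd had)

open Classical in
/-- An induced subgraph of the complement with `m` vertices has chromatic number at least
`m / 2`. -/
theorem encard_le_two_mul (S : Set (Fin 35)) {k : ℕ} (h : (Tᶜ.induce S).Colorable k) :
    S.encard ≤ 2 * k := by
  obtain ⟨c⟩ := h
  have h1 : (Finset.univ : Finset S).card ≤ 2 * (Finset.univ : Finset (Fin k)).card :=
    Finset.card_le_mul_card_image_of_maps_to (f := c) (s := (Finset.univ : Finset S))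
      (t := (Finset.univ : Finset (Fin k))) (fun _ _ => Finset.mem_univ _) 2
      (fun i _ => class_le c i)
  rw [Finset.card_univ, Finset.card_univ, Fintype.card_fin] at h1
  have h2 : S.encard = (Fintype.card S : ℕ∞) := by
    rw [Set.encard_eq_coe_toFinset_card, Set.toFinset_card]
  rw [h2]
  exact_mod_cast h1

/-- The chromatic number of the complement is at least `18`. -/
theorem eighteen_le : (18 : ℕ∞) ≤ Tᶜ.chromaticNumber := by
  by_contra hcon
  rw [not_le] at hcon
  have hc : Tᶜ.Colorable 17 := by
    rw [← SimpleGraph.chromaticNumber_le_iff_colorable]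
    exact Order.le_of_lt_succ hcon
  have h := encard_le_two_mul Set.univ (k := 17) (hc.of_hom (SimpleGraph.Embedding.induce _).toHom)
  rw [Set.encard_univ, ENat.card_eq_coe_fintype_card, Fintype.card_fin] at h
  exact absurd h (by norm_num)

/-- Colour `i` and `i + 1` alike, for even `i`. -/
def pairing : Tᶜ.Coloring ℕ :=
  SimpleGraph.Coloring.mk (fun i => i.val / 2) (by decide +kernel)

/-- The discrepancy of the complement is at most `9`. -/
theorem discrepancy_le : chromaticDiscrepancy Tᶜ ≤ 9 := by
  classical
  apply Nat.sInf_le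
  refine ⟨pairing, fun S => ?_⟩
  obtain ⟨k, hk⟩ : ∃ k : ℕ, (Tᶜ.induce S).chromaticNumber = k := by
    have : (Tᶜ.induce S).chromaticNumber ≠ ⊤ := by
      rw [SimpleGraph.chromaticNumber_ne_top_iff_exists]
      exact ⟨_, SimpleGraph.colorable_of_fintype _⟩
    exact ⟨_, (ENat.natCast_toNat this).symm⟩
  have hcol : (Tᶜ.induce S).Colorable k := by
    rw [← SimpleGraph.chromaticNumber_le_iff_colorable, hk]
  have h1 : S.encard ≤ 2 * k := encard_le_two_mul S hcol
  have h2 : (pairing '' S).encard ≤ S.encard := Set.encard_image_le _ _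
  have h3 : (pairing '' S).encard ≤ 18 := by
    have hsub : pairing '' S ⊆ ((Finset.range 18 : Finset ℕ) : Set ℕ) := by
      rintro _ ⟨x, -, rfl⟩
      rw [Finset.coe_range, Set.mem_Iio]
      have := x.isLt
      change x.val / 2 < 18
      omega
    refine (Set.encard_le_encard hsub).trans ?_
    rw [Set.encard_coe_eq_coe_finsetCard, Finset.card_range]
    rfl
  rw [hk]
  have h4 := h2.trans h1
  generalize (pairing '' S).encard = e at h3 h4
  lift e to ℕ using ne_top_of_le_ne_top (by decide) h3
  norm_cast at h3 h4 ⊢
  omega

/-- **Answer: no.** The inequality `φ(G) ≥ χ(G) - ω(G)` fails for some finite graph `G`. -/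
theorem result : ¬ ∀ (V : Type) [Finite V] (G : SimpleGraph V),
    G.chromaticNumber ≤ (G.cliqueNum : ℕ∞) + (chromaticDiscrepancy G : ℕ∞) := by
  intro h
  have h1 := h (Fin 35) Tᶜ
  have h2 := eighteen_le.trans h1
  have h3 : ((Tᶜ.cliqueNum : ℕ) : ℕ∞) + (chromaticDiscrepancy Tᶜ : ℕ∞) ≤ ((8 + 9 : ℕ) : ℕ∞) := by
    have := Nat.add_le_add cliqueNum_le discrepancy_le
    exact_mod_cast this
  have h4 := h2.trans h3
  norm_num at h4

end Pool.Agent.Results.MP_2248a2_co.RamseyCounterexample
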